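import Pool.Agent.Mg.F41f2d3.Gf1fcab

open SimpleGraph Pool.Agent.MP_41f2d3_co

namespace Pool.Agent.Results.MP_41f2d3_co.DiamondP123Bounded

/-- The class of (diamond, P1 + P2 + P3)-free graphs has bounded clique-width. -/
theorem result :
    ∃ c : ℕ, ∀ (V : Type) [Finite V] [Nonempty V] (G : SimpleGraph V),
      IsEmpty (diamond ↪g G) → IsEmpty ((pathGraph 1 ⊕g pathGraph 2 ⊕g pathGraph 3) ↪g G) →
      CliqueWidthLE G c :=
  bounded_diamond_P1P2P3

end Pool.Agent.Results.MP_41f2d3_co.DiamondP123Bounded
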